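import Pool.Agent.U173.BM.Bridge

/-!
# Jannsen's conjectures for the products of arbitrary varieties with varieties without supersingular parts

Let `k` be a finitely generated field of any characteristic and `U` **any variety over `k`**: a separated
scheme of finite type, not necessarily smooth, proper, reduced or irreducible. Let `𝒱` be a class of
smooth projective varieties over `k` which is closed under products, with its Chow groups `C` and `ℓ`-adic
cohomology `H` (coefficients extended to the algebraic closure `K` of `ℚ_ℓ`) and the operation `ρ` of the
Galois group `G` (framework of the starting library `N166/TT`; only formal properties are used,
`IsArithmetic`); `G` acts on the classes of divisors through the character `χ` (the geometric Frobenius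
elements at a place with residue field of `q` elements are mapped to `q`).

For `X` in `𝒱` let `CH X` be the Chow groups (with rational coefficients) of the cycles on `X × U` and
`HB X` the Borel-Moore homology of `X × U`, the dual of the cohomology with compact supports. The data
`HomologyData` consist of these groups with their gradings, the classes of cycles, the operation of `G`,
exterior products and the operations `x ↦ p_* (E · x)` for cycles `E` on `X` and the projection
`p : X × Y × U → Y × U`; the usual properties are listed in `IsHomology`: degrees, compatibility with
classes and with `G`, and the Künneth formula `HB (X × Y) = H(X) ⊗ HB(Y)`. **No Poincaré duality, no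
resolution of singularities and no purity is used for `U`.** The homology is not twisted, so the Tate
classes of dimension `n` (`IsTateClass`) are the elements of degree `2 n` on which `G` acts through
`χ ^ (-n)`, the invariants in `H_{2n}(X × U)(n)`. The conjecture (a) for `X × U` in dimension `n` is `IsOnto`:
the Tate classes are linear combinations of classes of cycles; the conjecture (b) is the conjunction of
`IsOnto` and `IsInjective`: the classes of cycles of dimension `n` form a rational space `B` such that
`B ⊗ K` is mapped injectively to the homology (so `B` is finite-dimensional).

Let `v` be a place of `k` (a closed point of a model) with residue field of `p ^ m` elements, `σ` a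
geometric Frobenius element, and `ι` a place above `p` of the field `ℚ̄` of the algebraic numbers. A *slope
field* of `X` at `v` is a subfield `M` of `ℚ̄` such that the automorphisms of `ℚ̄` over `M` do not change
the absolute values at `ι` of the conjugates of the eigenvalues of `σ`. A smooth projective variety `X` is
*good* for a set `P` of places with slope fields `L v` (`IsGoodSpace`) if `H(X)` is the direct sum of
the span of the classes of cycles and a subspace `T` stable under `G` such that at the places `v` in `P` the
Frobenius eigenvalues on `T` are Weil numbers with slope field `L v`, and no nonzero subspace of `T`
stable under `G` is supersingular at all places of `P`. Examples are all powers of abelian varieties with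
monodromy group `GSp_{2g}` and K3 surfaces, `P = {v}` a place where the reduction is not supersingular,
and products of curves, Fermat varieties, ... over finite fields with few relations between the Frobenius
eigenvalues.

**Theorem.** Let `X i` (`i` in the list `l`) be smooth projective varieties, each of them good for a set
`P i` of places, with slope fields `L i v` which contain totally real fields `E i v`. Let `Y j`
(`j` in the list `l'`) and `Z` be arbitrary smooth projective varieties. Suppose that for each `i` in `l`
and `v` in `P i`

* the homology of `Z × U` has at `v` a slope field which contains `E i v` and meets `L i v` in a totally
  real field (**a condition on the numbers only: they may have any weights**);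
* the later `X j` and the `Y j` are pure at `v` and have **each of them** such a slope field at `v`, and
  `L i v` is normal over `E i v` if there is a later `X j` or a `Y j`.

Let `W = ∏ Y j × Z`, `V = ∏ X i × W` and `e = ∑ dim X i`. Then

1. (a) for `V × U` in dimension `n` is equivalent to (a) for `W × U` in the dimensions `m` with
   `n - e ≤ m ≤ n`;
2. the injectivity in (b) for `V × U` in dimension `n` is equivalent to the one for `W × U` in the
   dimensions `m` with `n - e ≤ m ≤ n`; so the same is true for (b);
3. there are finitely many cycles `D_a` on the first factor `X i` such that the classes of cycles on
   `V × U` are in a unique way the classes of sums of `D_a × z_a` with cycles `z_a` on the product of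
   the other factors and `U`, and the Tate classes on `V × U` are in a unique way sums of
   `cl (D_a) × h_a` with Tate classes `h_a` on this product.

For example (`W` a point) **(a) and (b) for `V × U` in all dimensions are equivalent to (a) and (b) for `U`**;
so they hold for all products of such `V` with varieties `U` with any singularities for which they are
known: curves, linear, toric, cellular varieties and their open subvarieties, ... (for these the slope
condition holds if it holds for the Frobenius eigenvalues which occur; for cellular and toric varieties
they are powers of `q` and the slope field is `ℚ`, so that there is no condition for the last factor).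

The proof. The component of a Tate class `w` on `X i × V' × U` in `T ⊗ HB(V')` is semi-invariant; the
smallest subspace of `T` which is needed to write it is stable under `G`, and the eigenvalues of `σ` on it
are inverse, up to a power of `p`, to eigenvalues on `HB(V')` (`U173/GS/Lin`). By the results on numbers of
`U173/OP/Star`, which need purity only for the factors `X j` and `Y j` and only the pairwise conditions
on the slope fields, they are supersingular; so this subspace is zero. Hence `w` is a sum of products of
classes of cycles on `X i` with classes on `V' × U`, which are obtained by the operations
`x ↦ p_* (E · x)` with a dual system of cycles.

Relation to other hand-ins: `MP_90d181_ag.NoSupersingularParts`, also mine, is on smooth projective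
varieties, with Poincaré duality for all factors; here the homology of singular and open varieties, which
is mixed, and the injectivity part (b) are new. The hand-ins `ProductsWithCoverings` and
`SingularTimesCoverings` of helper926 are on products with cyclic coverings branched along hyperplanes,
by the theorem of Stickelberger.
-/

set_option autoImplicit false

open CategoryTheory AlgebraicGeometry

namespace Pool.Agent.Results.MP_4776b1_ag.AnyVarietyTimesGood

open Pool.Agent.H914 Pool.Agent.H914.VarClass Pool.Agent.W492.BB Pool.Agent.N166.TT
  Pool.Agent.U231.FR.Base
open Pool.Agent.U173.OP (Place IsArithmetic)
open Pool.Agent.U173.BM

/-- **Jannsen's conjectures (a) and (b) for the products of arbitrary varieties with varieties without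
supersingular parts.** -/
theorem result {k : Type} [Field k] {𝒱 : VarClass k} (C : TheoryData.{0, 0, 0} 𝒱 ℚ) [IsChow C]
    {K : Type} [Field K] [IsAlgClosed K] [CharZero K] (H : WeilTheoryData.{0, 0, 0} C K) [IsWeil H]
    {G : Type} (ρ : Operations H G) (h : IsArithmetic ρ) (T : HomologyData H G)
    (hT : IsHomology ρ T) {I I' : Type} (P : I → Set (Place G))
    (E L : I → Place G → IntermediateField ℚ (AlgebraicClosure ℚ)) (X : I → 𝒱.Obj)
    (Y : I' → 𝒱.Obj) (Z : 𝒱.Obj) (l : List I) (l' : List I')
    (hsys : IsSystem ρ T P E L X Y Z l l') :
    (∀ n : ℤ, IsOnto ρ T (productOf X (productOf Y Z l') l) n ↔
      ∀ m : ℤ, n - dimension X l ≤ m → m ≤ n → IsOnto ρ T (productOf Y Z l') m) ∧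
    (∀ n : ℤ, IsInjective T (productOf X (productOf Y Z l') l) n ↔
      ∀ m : ℤ, n - dimension X l ≤ m → m ≤ n → IsInjective T (productOf Y Z l') m) ∧
    (∀ i l₁, l = i :: l₁ → IsDeterminedBy ρ T (X i) (productOf X (productOf Y Z l') l₁)) :=
  main h hT l hsys

end Pool.Agent.Results.MP_4776b1_ag.AnyVarietyTimesGood
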