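import Pool.Agent.U554.TW.Cyc
import Pool.Agent.U554.TW.Main

/-!
# The integral form (b) of the Tate conjecture for all varieties, and explicit cubic hypersurfaces

Let `k` be a finitely generated field of characteristic zero, `ℓ` a prime and `K = ℚ_ℓ`.

* `𝓡` is the `K`-linear abelian category of the finite-dimensional continuous representations of `G_k` over
  `K`, and `one` the trivial representation `K`; `Hom(one, M) = M^{G_k}`.
* `O b m X`, for the separated schemes `X` of finite type over `k`, is the homomorphism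
  `c : CH_b(X, m) → Hom(one, H_{m + 2 b}(X̄, ℚ_ℓ(b)))` (higher Chow groups with integral coefficients, étale
  Borel-Moore homology). If `X` is smooth of pure dimension `d`, this is
  `CH^j(X, m) → H^{2 j - m}(X̄, ℚ_ℓ(j))^{G_k}`, `j = d - b`.
* `PartB K r`, for `r : A → Hom(one, B)`: the image `r(A)` is a finitely generated group, and
  `K ⊗_ℤ r(A) → Hom(one, B)` is bijective.

For `m = 0` the homomorphism is `cl_b` followed by `H_{2 b}(X̄, ℤ_ℓ(b)) → H_{2 b}(X̄, ℚ_ℓ(b))`, whose kernel is
finite. So its image is `B_b(X)` up to a finite group, and `PartB` for `O b 0 X` is the assertion (b) of the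
problem for `X` and `b`, which implies (a).

`IsIntegralTheory` lists the known properties which are used. Let `T` be a trilinear form over `k` in three
blocks `x`, `y`, `z` of `a₁`, `a₂`, `a₃` variables.

* `bilS T` is the closed subscheme `Z_T` of `𝔸^(a₂ + a₃)` given by the `a₁` bilinear equations
  `∂T/∂x_i (y, z) = 0`;
* `hypS T` is the smooth affine hypersurface `Y_T : T(x, y, z) = 1` of dimension `d = a₁ + a₂ + a₃ - 1`;
  `O (d - j) 1 (hypS T)` is `CH^j(Y_T, 1) → H^{2 j - 1}(Ȳ_T, ℚ_ℓ(j))^{G_k}`.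

The coefficients of `T` are arbitrary (`D = k`), or in `D = {0, 1}` in the case `k = ℚ`.
-/

set_option autoImplicit false

open CategoryTheory AlgebraicGeometry MvPolynomial Pool.Agent.Y116.UV Pool.Agent.U554.TU
  Pool.Agent.U554.TW

universe w v u

namespace Pool.Agent.Results.MP_4776b1_ag.CubicHypersurfaces

section

variable (K : Type) [Field K] {𝓡 : Type u} [Category.{v} 𝓡] [Abelian 𝓡] [Linear K 𝓡] {one : 𝓡}

/-- `r(A)` is finitely generated, and `K ⊗_ℤ r(A) → Hom(one, B)` is bijective, that is, `ℤ`-linearly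
independent elements of `r(A)` are `K`-linearly independent, and `r(A)` spans `Hom(one, B)`. -/
def PartB (r : CReg.{w} one) : Prop :=
  r.c.range.FG ∧ (∀ (n : ℕ) (v : Fin n → (one ⟶ r.B)), (∀ i, v i ∈ r.c.range) →
    LinearIndependent ℤ v → LinearIndependent K v) ∧
  ∀ x : one ⟶ r.B, x ∈ Submodule.span K (Set.range r.c)

variable {k : Type} [Field k]

/-- (b) for all smooth proper schemes. -/
def SmoothProperB (O : ℤ → ℤ → Sch k → CReg.{w} one) : Prop :=
  ∀ (V : Sch k) (b : ℤ), FT True V → Smooth V.hom → IsProper V.hom → PartB K (O b 0 V)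

/-- (b) for all separated schemes of finite type. -/
def AllB (O : ℤ → ℤ → Sch k → CReg.{w} one) : Prop :=
  ∀ (X : Sch k) (b : ℤ), FT True X → PartB K (O b 0 X)

/-- (b) for all schemes given by bilinear equations with coefficients in `D`. -/
def BilinearB (D : Set k) (O : ℤ → ℤ → Sch k → CReg.{w} one) : Prop :=
  ∀ (a₁ a₂ a₃ : ℕ) (T : Fin a₁ → Fin a₂ → Fin a₃ → k), (∀ i j l, T i j l ∈ D) →
    ∀ b : ℤ, PartB K (O b 0 (bilS T))

/-- `PartB` for `CH^j(Y_T, 1)`, for all cubics `Y_T : T(x, y, z) = 1` with coefficients in `D`, `j ≥ s`. -/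
def CubicB (D : Set k) (s : ℕ) (O : ℤ → ℤ → Sch k → CReg.{w} one) : Prop :=
  ∀ (a₁ a₂ a₃ : ℕ) (T : Fin a₁ → Fin a₂ → Fin a₃ → k), (∀ i j l, T i j l ∈ D) →
    ∀ j : ℕ, s ≤ j → PartB K (O (a₁ + a₂ + a₃ - 1 - j) 1 (hypS T))

/-- The known properties: the properties `IsCycTheory` (long exact sequences, homotopy invariance, ...) and

* `point`: `CH^j(Spec k, m) = 0` and `H_{m - 2 j}(Spec k̄) = 0` for `m = 0, 1` and `j ≥ 2`;
* `torsor`: homotopy invariance for affine bundles;
* `jouanolou`: smooth separated schemes of finite type have affine bundles with affine total space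
  (Jouanolou, Thomason);
* `jannsen`: (b) for all smooth proper schemes implies (b) for all schemes (Jannsen, characteristic zero). -/
structure IsIntegralTheory (O : ℤ → ℤ → Sch k → CReg.{w} one) : Prop extends IsCycTheory O where
  point : ∀ b m : ℤ, b ≤ -2 → (m = 0 ∨ m = 1) → (O b m (aff k k)).Triv
  torsor : BundleInvariant (CReg.rel one) O
  jouanolou : ∀ X : Sch k, FT True X → Smooth X.hom → HasAffineBundle X
  jannsen : SmoothProperB K O → AllB K O

variable {K}

/-- A direct factor inherits the property. -/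
lemma inherited : Inherited (CReg.rel.{w} one) (PartB K) := by
  rintro X Y ⟨s, r, h1, h2⟩ ⟨hY, hind, hspan⟩
  have hrs : ∀ x : one ⟶ X.B, (x ≫ s.g) ≫ r.g = x := fun x => by
    rw [Category.assoc, h2, Category.comp_id]
  refine ⟨?_, ?_, ?_⟩
  · have h3 : X.c.range = Y.c.range.map (Preadditive.rightComp one r.g) := by
      ext x
      constructor
      · rintro ⟨a, rfl⟩
        refine ⟨Y.c (s.f a), ⟨_, rfl⟩, ?_⟩
        change Y.c (s.f a) ≫ r.g = X.c a
        rw [← s.comm, hrs]
      · rintro ⟨y, ⟨a, rfl⟩, rfl⟩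
        exact ⟨r.f a, (r.comm a).symm⟩
    obtain ⟨S, hS⟩ := hY
    rw [h3, ← hS, AddMonoidHom.map_closure]
    classical
    exact ⟨S.image _, by rw [Finset.coe_image]⟩
  · intro n v hv hli
    have hinj : LinearMap.ker (Preadditive.rightComp one s.g : (one ⟶ X.B) →+ _).toIntLinearMap = ⊥ := by
      rw [LinearMap.ker_eq_bot]
      intro x y hxy
      change x ≫ s.g = y ≫ s.g at hxy
      rw [← hrs x, hxy, hrs]
    have h3 := hind n (fun i => v i ≫ s.g) (fun i => by
      obtain ⟨a, ha⟩ := hv i
      exact ⟨s.f a, by rw [← ha, s.comm]⟩) (hli.map' _ hinj)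
    exact LinearIndependent.of_comp (Linear.rightComp K one s.g) h3
  · intro x
    have h3 : (Linear.rightComp K one r.g) (x ≫ s.g) ∈
        (Submodule.span K (Set.range Y.c)).map (Linear.rightComp K one r.g) :=
      Submodule.mem_map_of_mem (hspan (x ≫ s.g))
    rw [Submodule.map_span] at h3
    have h4 : (Linear.rightComp K one r.g) (x ≫ s.g) = x := hrs x
    rw [h4] at h3
    refine Submodule.span_mono ?_ h3
    rintro _ ⟨_, ⟨a, rfl⟩, rfl⟩
    exact ⟨r.f a, (r.comm a).symm⟩

end

/-- **The integral Tate conjecture (b) for all varieties, and cubic hypersurfaces.** Let `O b m X` have the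
known properties of the cycle class maps over the field `k` of characteristic zero (finitely generated,
`K = ℚ_ℓ`), and let `s ≥ 2` be an arbitrary fixed number. Let `D = k`, or `k = ℚ` and `D = {0, 1}`. Then the
following are equivalent:

* (b) for all smooth proper `V` over `k`;
* (b) for all separated schemes of finite type over `k` (this is Q1 for `k` and `ℓ`);
* (b) for all closed subschemes `Z_T` of affine spaces which are given by bilinear equations with
  coefficients in `D`;
* for all cubic hypersurfaces `Y_T : T(x, y, z) = 1`, `T` trilinear with coefficients in `D`, and all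
  `j ≥ s`, the image `B` of `CH^j(Y_T, 1)` in `H^{2 j - 1}(Ȳ_T, ℚ_ℓ(j))` is finitely generated, and
  `ℚ_ℓ ⊗ B → H^{2 j - 1}(Ȳ_T, ℚ_ℓ(j))^{G_k}` is bijective. -/
theorem result (K : Type) [Field K] {𝓡 : Type u} [Category.{v} 𝓡] [Abelian 𝓡] [Linear K 𝓡]
    (one : 𝓡) {k : Type} [Field k] [CharZero k] (O : ℤ → ℤ → Sch k → CReg.{w} one)
    (hO : IsIntegralTheory K O) (s : ℕ) (hs : 2 ≤ s) (D : Set k)
    (hD : D = Set.univ ∨ D = {0, 1} ∧ Nonempty (ℚ ≃+* k)) :
    List.TFAE [SmoothProperB K O, AllB K O, BilinearB K D O, CubicB K D s O] := by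
  have hP : Presents D := by
    rcases hD with rfl | ⟨rfl, h⟩
    · exact presents_univ
    · exact presents_rat h
  have h0 : (0 : k) ∈ D ∧ (1 : k) ∈ D := by
    rcases hD with rfl | ⟨rfl, h⟩
    · exact ⟨trivial, trivial⟩
    · exact ⟨Or.inl rfl, Or.inr rfl⟩
  tfae_have 1 → 2 := hO.jannsen
  tfae_have 2 → 3 := fun h a₁ a₂ a₃ T _ b => h _ _ (ft_aff True)
  tfae_have 3 → 4 := fun h a₁ a₂ a₃ T hT j hj =>
    ((inherited (K := K) (one := one)).iff (bil_hyp hO.toIsCycTheory.isTheory T j 0
      (hO.point _ _ (by omega) (Or.inl rfl)) (hO.point _ _ (by omega) (Or.inr rfl)))).mpr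
      (h a₁ a₂ a₃ T hT _)
  tfae_have 4 → 1 := fun h V b h2 h3 _ =>
    smooth_of_hyp hO.toIsCycTheory.isTheory hO.torsor hO.jouanolou (inherited (K := K) (one := one)) 0 s
      h0.1 h0.2 hP (fun a₁ a₂ a₃ T hT j hj => h a₁ a₂ a₃ T hT j hj) V b h2 h3
  tfae_finish

end Pool.Agent.Results.MP_4776b1_ag.CubicHypersurfaces
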