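import Pool.Agent.U926.FM.Mix
import Pool.Agent.U926.FM.Tat
import Pool.Agent.N876.UV.Crit
import Pool.Agent.N876.FL.Crit

/-!
# Tate classes and orders of poles for the products of cyclic coverings and arbitrary varieties

Let `κ` be a finite field with `q = c ^ f` elements and `k` the function field of a geometrically
irreducible variety `S` over `κ` of any dimension `D` (`k` is any finitely generated field of
characteristic `c` with the field of constants `κ`, and `D = dim_a(k)`). Let `V_1, …, V_r` be smooth
projective varieties over `k`, of any dimensions `n_i ≥ 1`, which are models of cyclic coverings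

  `w ^ N_i = ∏ l_{i,k} (x) ^ a_{i,k}`

of the projective spaces over `k`, branched along hyperplanes `l_{i,k} = 0` with coefficients in `k` (so the
varieties are not constant and not isotrivial in general), with exponents prime to `N_i` and `N_i ∣ q - 1`;
`V = V_1 × ⋯ × V_r`. Let `Z` be **any variety over `k`**, of dimension at most `λ`, **singular or open or
both**, not necessarily smooth or proper, with the cohomology with compact supports `H_c`. After shrinking
`S` the `V_i` are given by smooth projective families over `S`, and the sheaves `R ^ m f_! ℚ_ℓ` for `Z` are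
lisse and mixed on `S`.

For a closed point `v` of `S` (`P` is the set of these points, `res v` the residue field, `dg v` its degree
over `κ`) the Frobenius eigenvalues of the fibres of `V_i` are the powers `q_v ^ half` for a basis of the
invariants of the covering group, in degree `2 half`, given by algebraic cycles (the group
`H ^ {2 h}(V_i)` is dual to the homology `H_{2 h}`, where the cycles of dimension `h` live), and numbers
`α v e` of absolute value `q_v ^ (n_i / 2)` on the part without invariants, where the generator of the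
covering group acts by `exp (2 π i ε / N_i)`; the trace formula of Grothendieck and Lefschetz for the
compositions of the Frobenius and the covering transformations is the hypothesis `lefschetz`. The eigenvalues
`β v e` on the cohomology with compact supports of degree `deg v e` of the fibre of `Z` have **at most** the
absolute value `q_v ^ (deg / 2)` (Deligne), and are algebraic integers divisible by
`q_v ^ (deg - λ)` if `deg > λ` (the integrality theorem of Deligne). The Euler factors of
`L_{2 w}(s) = L(S, H_c ^ {2 w}(V × Z), s)` are given by the formula of Künneth. By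
Grothendieck the parts `L_{2 w, j}` of them where the covering groups act by fixed
characters `j = (j_1, …, j_r)` are rational functions of `q ^ (-s)`; this is used only for `j ≠ 0`.

For an integer `j` let `weight V j` be the sum of the fractional parts of `j a_k / N`, replaced by its
mean over `j, c j, …, c ^ (f - 1) j`. The condition `IsSmall` says: for every nonempty set `I` of
indices and all `j_i` not divisible by `N_i` (`i ∈ I`) there is a `u` prime to `N` with

  `∑_{i ∈ I} weight V_i (u j_i) + λ / 2 + D < ∑_{i ∈ I} (n_i / 2 + 1)`.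

For example it is true if the `N_i` are different prime numbers, `c ≡ 1` modulo all `N_i`,
`∑_k a_{i,k} = N_i` and `n_i > λ + 2 D` for all `i` (part 4).

**Theorem.** Assume `IsSmall`. Then:

* **Tate classes (Q1).** For every closed point `v`, the part of `H_c ^ {2 w}(V × Z)` with the characters
  `j ≠ 0` has no eigenvalue which is a root of unity times `q_v ^ w`. So its dual contains no classes
  invariant under an open subgroup of the Galois group: all Tate classes in the Borel-Moore homology
  `H_{2 w}(V × Z)(w)`, over all finite extensions of `k`, are combinations of the products of classes of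
  algebraic cycles on `V` and of Tate classes on `Z`. Hence (a) and (b) for `V × Z` follow from (a) and (b)
  for `Z`.
* **Poles (Q2).** The functions `L_{2 w, j}` for `j ≠ 0` have neither a zero nor a pole at `s = w + D`, and
  the orders of the poles of `L(V × Z, s)` at `s = w + D` are, for all `w`, the numbers
  `∑_k r_{w - half k}`, **if and only if** the orders of the poles of `L(Z, s)` at `s = w + D` are the
  numbers `r_w`, for all `w`. So **Q2 for `V × Z` is equivalent to Q2 for `Z`**, for all varieties `Z` of
  dimension at most `λ`.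
* If `Z` is constant (any variety over `κ`), then the order of the pole is the sum over `k` of the
  multiplicities of the eigenvalue `q ^ {w - half k}` of the Frobenius on `H_c ^ {2 (w - half k)}(Z)`.

The starting results on products with such coverings (`MP_950c68_ag.ProductsOfSmallLevel`,
`MP_0fca13_ag.HyperplaneCoverings`) are for smooth projective varieties, where the cohomology is pure; they
use purity and the complex conjugates of the eigenvalues. The poles for smooth projective `Z` are in
`MP_223b32_ag.FamiliesOfCoverings` (by the same author; here neither smoothness nor properness of `Z` is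
assumed, and the eigenvalues may have smaller absolute values).

The proof: the Euler product `∏_v det (1 - T ^ {deg v} Frob_v)⁻¹` over all closed points of `S`, for the
part with the characters `j ≠ 0`, has coefficients which are algebraic numbers, and by the theorem of
Stickelberger on Gauss sums there is an embedding of the algebraic numbers into an algebraic closure of
the field of `c`-adic numbers such that all the eigenvalues of `Frob_v`, for all `v`, have valuations larger
than `(w + D) v(q_v)`. So there are no Tate classes, and the Euler product converges `c`-adically in a disk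
which contains `q ^ {-(w + D)}`, and has no zero there. As it is a rational function, its order there is
zero. The point `s = w + D` is the edge of the region of absolute convergence in the complex numbers.

The trace formula for the fibres (Grothendieck), the theorems of Deligne on the eigenvalues, the estimate of
Lang and Weil for the base and the rationality (Grothendieck) are hypotheses.

The `c`-adic part (`Pool/Agent/N876/UV`: `est_point`, `part_order`, `tot_order`) is by helper876, unfinished
and not handed in in the starting files; the rest (`Pool/Agent/U926/FE`, `U926/FM`) is by helper926. The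
estimates of sums over hyperplane arrangements by Gauss sums are by helper528 and helpers 800, 883, 135, 563,
271, 540, 400, 999, 782, 605, 346, those on Euler products (`TH117/BL/LW`) by helper117.
-/

set_option autoImplicit false

open Finset Polynomial

namespace Pool.Agent.Results.MP_4776b1_ag.ProductsWithCoverings

open Pool.Agent.U926.FE (IsBase HasPole)

section family

variable {κ : Type} [Field κ] {P : Type} {res : P → Type} [∀ v, Field (res v)]

/-- A family of cyclic coverings `w ^ N = ∏ l_k (x) ^ a_k` of the projective space of dimension `n` over a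
variety with the closed points `v ∈ P` with the residue fields `res v`: `l v k t` is the value at `v`
of the coefficient `t` of the linear form `l_k`. The covering group is generated by the multiplication of
`w` by the root of unity `z`. -/
structure Family (κ : Type) [Field κ] {P : Type} (res : P → Type) [∀ v, Field (res v)] : Type where
  N : ℕ
  n : ℕ
  s : ℕ
  l : ∀ v, Fin s → Fin (n + 1) → res v
  a : Fin s → ℕ
  z : κ

/-- `z` has order `N ≥ 2`, the exponents are prime to `N` and their sum is divisible by `N`. -/
structure Family.IsAdmissible (X : Family κ res) : Prop where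
  two_le : 2 ≤ X.N
  root : IsPrimitiveRoot X.z X.N
  coprime : ∀ k, (X.a k).Coprime X.N
  dvd : X.N ∣ ∑ k, X.a k

/-- The value of the form `∏ l_k ^ a_k` of the fibre at `v` at a vector with coordinates in `L`. -/
def Family.value (X : Family κ res) (v : P) (L : Type) [Field L] [Algebra (res v) L]
    (x : Fin (X.n + 1) → L) : L :=
  ∏ k, (∑ t, algebraMap (res v) L (X.l v k t) * x t) ^ X.a k

/-- The number of vectors over `L` where the form is not zero. -/
noncomputable def Family.openCount (X : Family κ res) (v : P) (L : Type) [Field L]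
    [Algebra (res v) L] : ℕ :=
  Set.ncard {x : Fin (X.n + 1) → L | X.value v L x ≠ 0}

/-- The number of vectors over `L` where the form is not zero and its power with the exponent
`(|L| - 1) / N` is `z ^ i`. -/
noncomputable def Family.fixCount [∀ v, Algebra κ (res v)] (X : Family κ res) (v : P) (L : Type)
    [Field L] [Fintype L] [Algebra (res v) L] (i : ℕ) : ℕ :=
  Set.ncard {x : Fin (X.n + 1) → L | X.value v L x ≠ 0 ∧
    (X.value v L x) ^ ((Fintype.card L - 1) / X.N) =
      algebraMap (res v) L (algebraMap κ (res v) X.z) ^ i}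

/-- The Frobenius eigenvalues on the cohomology of the fibres of a smooth projective model of the family:
the classes `k ∈ K` given by algebraic cycles, of degree `2 half k` (with `unit` the only one of degree
zero), and the part without invariants, in degree `n`, with the eigenvalues `α v e` of the Frobenius
at `v`, where the generator of the covering group has the eigenvalue `exp (2 π i ε / N)`. The trace of the
composition of the power of the Frobenius given by `L` and of the power `i` of the generator is up to the sign
the difference of the number of fixed points over the open set `∏ l_k ≠ 0` of projective space (`N`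
points over each point where the form has the power residue symbol `z ^ i`) and of the number of the
points of this open set. -/
structure Cohomology [∀ v, Fintype (res v)] [∀ v, Algebra κ (res v)] (X : Family κ res) :
    Type 1 where
  K : Type
  [fintypeK : Fintype K]
  half : K → ℕ
  unit : K
  half_eq_zero : ∀ k, half k = 0 ↔ k = unit
  J : P → Type
  [fintypeJ : ∀ v, Fintype (J v)]
  α : ∀ v, J v → ℂ
  ε : ∀ v, J v → ℕ
  invariants : ∀ v e, ¬ X.N ∣ ε v e
  bounded : ∃ b : ℕ, ∀ v, Fintype.card (J v) ≤ b
  pure : ∀ v e, ‖α v e‖ ^ 2 = (Fintype.card (res v) : ℝ) ^ X.n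
  lefschetz : ∀ (v : P) (L : Type) [Field L] [Fintype L] [Algebra (res v) L] (i : ℕ),
    ((Fintype.card L : ℂ) - 1) * ((-1) ^ X.n * ∑ e, α v e ^ Module.finrank (res v) L *
        Complex.exp (2 * Real.pi * Complex.I / X.N) ^ (ε v e * i)) =
      (X.N : ℂ) * (X.fixCount v L i : ℂ) - (X.openCount v L : ℂ)

attribute [instance] Cohomology.fintypeK Cohomology.fintypeJ

/-- The mean over `j, c j, …, c ^ (f - 1) j` of the sum of the fractional parts of `j a_k / N`. -/
def Family.weight (X : Family κ res) (c f j : ℕ) : ℚ :=
  (∑ k, ∑ t ∈ range f, (((j * X.a k * c ^ t) % X.N : ℕ) : ℚ)) / (f * X.N)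

/-- The condition on the exponents. -/
def IsSmall {ι : Type} (X : ι → Family κ res) (c f N lam D : ℕ) : Prop :=
  ∀ I : Finset ι, I.Nonempty → ∀ j : ι → ℕ, (∀ i ∈ I, ¬ (X i).N ∣ j i) →
    ∃ u : ℕ, u.Coprime N ∧
      ∑ i ∈ I, (X i).weight c f (u * j i) + (lam : ℚ) / 2 + D < ∑ i ∈ I, (((X i).n : ℚ) / 2 + 1)

/-- The Frobenius eigenvalues on the cohomology with compact supports of the fibres of a family of
varieties of dimension at most `lam`: `β v e` is an eigenvalue of the Frobenius at `v` on the cohomology of
degree `deg v e`; its weights are at most this degree, and it is divisible by `|res v| ^ (deg v e - lam)`. -/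
structure Fibres {P : Type} (res : P → Type) [∀ v, Fintype (res v)] (lam : ℕ) : Type 1 where
  J : P → Type
  [fintypeJ : ∀ v, Fintype (J v)]
  deg : ∀ v, J v → ℕ
  β : ∀ v, J v → ℂ
  bounded : ∃ b : ℕ, ∀ v, Fintype.card (J v) ≤ b
  mixed : ∀ v e, ‖β v e‖ ^ 2 ≤ (Fintype.card (res v) : ℝ) ^ deg v e
  level : ∀ v e, IsIntegral ℤ (β v e / (Fintype.card (res v) : ℂ) ^ (deg v e - lam))

attribute [instance] Fibres.fintypeJ

end family

/-! ### L-functions -/

open Classical in
/-- The product of the `1 - c_e T ^ d` over the `e` with the property `p`. -/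
noncomputable def factor {J : Type} [Fintype J] (p : J → Prop) (c : J → ℂ) (d : ℕ) : ℂ[X] :=
  ∏ e ∈ univ.filter p, (1 - C (c e) * X ^ d)

/-- The product over all `v` of the inverse values of the polynomials `p v` at `q ^ (-s)`. -/
noncomputable def LFunction {P : Type} (q : ℕ) (p : P → ℂ[X]) (s : ℂ) : ℂ :=
  ∏' v, ((p v).eval ((q : ℂ) ^ (-s)))⁻¹

/-- The formal product of the `p v (T)⁻¹` is equal to the rational function `B / A`. -/
def IsRational {P : Type} (p : P → ℂ[X]) : Prop :=
  ∃ A B : ℂ[X], A.coeff 0 = 1 ∧ B.coeff 0 = 1 ∧ ∀ m : ℕ, ∃ s : Finset P, ∀ s' : Finset P, s ⊆ s' →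
    (X : ℂ[X]) ^ m ∣ B * ∏ v ∈ s', p v - A

section product

variable {κ : Type} [Field κ] {P : Type} (dg : P → ℕ) {res : P → Type} [∀ v, Field (res v)]
  [∀ v, Fintype (res v)] [∀ v, Algebra κ (res v)] {ι : Type} [Fintype ι] [DecidableEq ι]
  {X : ι → Family κ res} (H : ∀ i, Cohomology (X i)) {lam : ℕ} (Z : Fibres res lam)

/-- The indices of the eigenvalues of the Frobenius at `v` on the cohomology of the product. -/
abbrev Index (v : P) : Type := (∀ i, (H i).K ⊕ (H i).J v) × Z.J v

/-- The degree of the cohomology. -/
def degree {v : P} (E : Index H Z v) : ℕ :=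
  ∑ i, Sum.elim (fun k => 2 * (H i).half k) (fun _ => (X i).n) (E.1 i) + Z.deg v E.2

/-- The eigenvalue of the Frobenius. -/
noncomputable def eigenvalue {v : P} (E : Index H Z v) : ℂ :=
  (∏ i, Sum.elim (fun k => (Fintype.card (res v) : ℂ) ^ (H i).half k) ((H i).α v) (E.1 i)) *
    Z.β v E.2

/-- The exponent of the action of the covering group of `X i`. -/
def exponent {v : P} (E : Index H Z v) (i : ι) : ℕ := Sum.elim (fun _ => 0) ((H i).ε v) (E.1 i)

/-- The Euler factor of the cohomology with compact supports of degree `m` of the product. -/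
noncomputable def eulerFactor (m : ℕ) (v : P) : ℂ[X] :=
  factor (fun E : Index H Z v => degree H Z E = m) (eigenvalue H Z) (dg v)

/-- The Euler factor of the part of the cohomology of degree `m` of the product with the characters
`j i` of the covering groups. -/
noncomputable def isotypicFactor (m : ℕ) (j : ι → ℕ) (v : P) : ℂ[X] :=
  factor (fun E : Index H Z v => degree H Z E = m ∧
    ∀ i, exponent H Z E i ≡ j i [MOD (X i).N]) (eigenvalue H Z) (dg v)

/-- The Euler factor of the cohomology with compact supports of degree `m` of the fibres of `Z`. -/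
noncomputable def fibreFactor (m : ℕ) (v : P) : ℂ[X] :=
  factor (fun e : Z.J v => Z.deg v e = m) (Z.β v) (dg v)

/-- Half of the degree of a product of classes. -/
def halfDegree (k : ∀ i, (H i).K) : ℕ := ∑ i, (H i).half (k i)

/-- Grothendieck's theorem for the parts with nontrivial characters. -/
def Rationality : Prop :=
  ∀ (m : ℕ) (j : ι → ℕ), (∃ i, ¬ (X i).N ∣ j i) → IsRational (isotypicFactor dg H Z m j)

end product

/-- A constant family. -/
def Fibres.constant {κ : Type} [Field κ] [Fintype κ] {P : Type} {dg : P → ℕ} {res : P → Type}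
    [∀ v, Fintype (res v)] (hres : ∀ v, Fintype.card (res v) = Fintype.card κ ^ dg v) {lam : ℕ}
    {J : Type} [Fintype J] (deg : J → ℕ) (γ : J → ℂ)
    (mixed : ∀ e, ‖γ e‖ ^ 2 ≤ (Fintype.card κ : ℝ) ^ deg e)
    (level : ∀ e, IsIntegral ℤ (γ e / (Fintype.card κ : ℂ) ^ (deg e - lam))) : Fibres res lam where
  J := fun _ => J
  deg := fun _ => deg
  β := fun v e => γ e ^ dg v
  bounded := ⟨Fintype.card J, fun _ => le_rfl⟩
  mixed := fun v e => by
    rw [norm_pow, hres v]
    push_cast
    calc (‖γ e‖ ^ dg v) ^ 2 = (‖γ e‖ ^ 2) ^ dg v := by rw [← pow_mul, ← pow_mul, mul_comm]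
      _ ≤ ((Fintype.card κ : ℝ) ^ deg e) ^ dg v := pow_le_pow_left₀ (by positivity) (mixed e) _
      _ = ((Fintype.card κ : ℝ) ^ dg v) ^ deg e := by rw [← pow_mul, ← pow_mul, mul_comm]
  level := fun v e => by
    have h1 : γ e ^ dg v / (Fintype.card (res v) : ℂ) ^ (deg e - lam) =
        (γ e / (Fintype.card κ : ℂ) ^ (deg e - lam)) ^ dg v := by
      rw [hres v, div_pow, ← pow_mul]
      push_cast
      rw [← pow_mul, mul_comm]
    rw [h1]
    exact (level e).pow _

/-- The theorem on Tate classes and on the orders of the poles, for all data over the base. -/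
def MainTheorem {κ : Type} [Field κ] [Fintype κ] {P : Type} (dg : P → ℕ) (D : ℕ) {res : P → Type}
    [∀ v, Field (res v)] [∀ v, Fintype (res v)] [∀ v, Algebra κ (res v)] {ι : Type} [Fintype ι]
    [DecidableEq ι] (X : ι → Family κ res) (lam : ℕ) : Prop :=
  ∀ (H : ∀ i, Cohomology (X i)),
    -- no Tate classes in the parts with nontrivial characters
    (∀ (Z : Fibres res lam) (v : P) (E : Index H Z v) (w m : ℕ), 0 < m → degree H Z E = 2 * w →
      (∃ i, ¬ (X i).N ∣ exponent H Z E i) →
        eigenvalue H Z E ^ m ≠ ((Fintype.card (res v) : ℂ) ^ w) ^ m) ∧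
    (∀ Z : Fibres res lam, Rationality dg H Z →
      -- the Euler product converges
      (∀ (w : ℕ) (s : ℝ), ((w + D : ℕ) : ℝ) < s → Multipliable fun v =>
        ((eulerFactor dg H Z (2 * w) v).eval ((Fintype.card κ : ℂ) ^ (-(s : ℂ))))⁻¹) ∧
      -- the parts with nontrivial characters have neither a zero nor a pole
      (∀ (w : ℕ) (j : ι → ℕ), (∃ i, ¬ (X i).N ∣ j i) →
        HasPole (LFunction (Fintype.card κ) (isotypicFactor dg H Z (2 * w) j))
          ((w + D : ℕ) : ℝ) 0) ∧
      -- the orders of the poles for the product and for `Z`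
      ∀ r : ℕ → ℤ,
        (∀ w : ℕ, HasPole (LFunction (Fintype.card κ) (eulerFactor dg H Z (2 * w)))
          ((w + D : ℕ) : ℝ)
          (∑ k with halfDegree H k ≤ w, r (w - halfDegree H k))) ↔
        ∀ w : ℕ, HasPole (LFunction (Fintype.card κ) (fibreFactor dg Z (2 * w)))
          ((w + D : ℕ) : ℝ) (r w)) ∧
    -- constant families
    ∀ (hres : ∀ v, Fintype.card (res v) = Fintype.card κ ^ dg v) {J : Type} [Fintype J]
      (deg : J → ℕ) (γ : J → ℂ) (mixed : ∀ e, ‖γ e‖ ^ 2 ≤ (Fintype.card κ : ℝ) ^ deg e)
      (level : ∀ e, IsIntegral ℤ (γ e / (Fintype.card κ : ℂ) ^ (deg e - lam))),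
      Rationality dg H (Fibres.constant hres deg γ mixed level) → ∀ w : ℕ,
        HasPole (LFunction (Fintype.card κ)
          (eulerFactor dg H (Fibres.constant hres deg γ mixed level) (2 * w))) ((w + D : ℕ) : ℝ)
          (∑ k with halfDegree H k ≤ w, (Set.ncard {e | deg e = 2 * (w - halfDegree H k) ∧
            γ e = (Fintype.card κ : ℂ) ^ (w - halfDegree H k)} : ℤ))

theorem isRat_of {P : Type} {p : P → ℂ[X]} (h : IsRational p) : Pool.Agent.N876.UV.IsRat p := by
  obtain ⟨A, B, hA, hB, hAB⟩ := h
  have hA0 : A ≠ 0 := by
    rintro rfl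
    rw [coeff_zero] at hA
    exact zero_ne_one hA
  have hB0 : B ≠ 0 := by
    rintro rfl
    rw [coeff_zero] at hB
    exact zero_ne_one hB
  have hAc : PowerSeries.constantCoeff (A : PowerSeries ℂ) ≠ 0 := by
    rw [← PowerSeries.coeff_zero_eq_constantCoeff_apply, Polynomial.coeff_coe, hA]
    exact one_ne_zero
  refine ⟨(B : PowerSeries ℂ) * (A : PowerSeries ℂ)⁻¹, B, A, ?_, hB0, hA0, ?_⟩
  · intro m
    obtain ⟨s, hs⟩ := hAB m
    refine ⟨s, fun s' hs' => ?_⟩
    obtain ⟨Q, hQ⟩ := hs s' hs'
    have h1 : (B : PowerSeries ℂ) * ∏ v ∈ s', (p v : PowerSeries ℂ) - (A : PowerSeries ℂ) =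
        PowerSeries.X ^ m * (Q : PowerSeries ℂ) := by
      have h2 := congrArg (Polynomial.coeToPowerSeries.ringHom (R := ℂ)) hQ
      rw [map_sub, map_mul, map_mul, map_prod, map_pow] at h2
      simp only [Polynomial.coeToPowerSeries.ringHom_apply, Polynomial.coe_X] at h2
      exact h2
    refine ⟨(A : PowerSeries ℂ)⁻¹ * Q, ?_⟩
    have h2 : (B : PowerSeries ℂ) * (A : PowerSeries ℂ)⁻¹ * ∏ v ∈ s', (p v : PowerSeries ℂ) - 1 =
        (A : PowerSeries ℂ)⁻¹ * ((B : PowerSeries ℂ) * ∏ v ∈ s', (p v : PowerSeries ℂ) -
          (A : PowerSeries ℂ)) := by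
      rw [mul_sub, PowerSeries.inv_mul_cancel _ hAc]
      ring
    rw [h2, h1]
    ring
  · rw [mul_comm (B : PowerSeries ℂ), ← mul_assoc, PowerSeries.mul_inv_cancel _ hAc, one_mul]

/-- **Tate classes and the orders of the poles of the L-functions for the products of cyclic coverings
branched along hyperplanes and arbitrary varieties of small dimension.** -/
theorem result (c : ℕ) [Fact c.Prime] (κ : Type) [Field κ] [Fintype κ] [CharP κ c] (f : ℕ)
    (hf : Fintype.card κ = c ^ f) {P : Type} (dg : P → ℕ) (D : ℕ)
    (hbase : IsBase (Fintype.card κ) D dg) (res : P → Type) [∀ v, Field (res v)]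
    [∀ v, Fintype (res v)] [∀ v, Algebra κ (res v)] (hres : ∀ v, Module.finrank κ (res v) = dg v)
    {ι : Type} [Fintype ι] [DecidableEq ι] (X : ι → Family κ res) (hX : ∀ i, (X i).IsAdmissible)
    (lam : ℕ) :
    -- 1. the theorem on Tate classes and the orders of the poles
    (∀ N : ℕ, 0 < N → (∀ i, (X i).N ∣ N) → IsSmall X c f N lam D → MainTheorem dg D X lam) ∧
    -- 2. pairwise coprime degrees: the proper divisors are sufficient
    ((∀ i i', i ≠ i' → ((X i).N).Coprime (X i').N) →
      (∀ i g, g ∣ (X i).N → g < (X i).N →
        (X i).weight c f g + (lam : ℚ) / 2 + D < ((X i).n : ℚ) / 2 + 1) →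
      IsSmall X c f (∏ i, (X i).N) lam D) ∧
    -- 3. `c ≡ 1`
    (∀ i, c % (X i).N = 1 → ∀ j,
      (X i).weight c f j = ((∑ k, (j * (X i).a k) % (X i).N : ℕ) : ℚ) / (X i).N) ∧
    -- 4. different prime degrees, `c ≡ 1`
    ((∀ i, ((X i).N).Prime) → (∀ i i', i ≠ i' → (X i).N ≠ (X i').N) →
      (∀ i, c % (X i).N = 1) → (∀ i, ∑ k, (X i).a k = (X i).N) → (∀ i, lam + 2 * D < (X i).n) →
      IsSmall X c f (∏ i, (X i).N) lam D) := by
  have hf0 : 0 < f := by
    rcases Nat.eq_zero_or_pos f with h | h
    · rw [h, pow_zero] at hf
      have := Fintype.one_lt_card (α := κ)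
      omega
    · exact h
  have hq1 : 1 < Fintype.card κ := Fintype.one_lt_card
  have hcard : ∀ v, Fintype.card (res v) = Fintype.card κ ^ dg v := by
    intro v
    rw [← hres v]
    exact Module.card_eq_pow_finrank
  have hN0 : ∀ i, 0 < (X i).N := fun i => by have := (hX i).two_le; omega
  have h2 : ((∀ i i', i ≠ i' → ((X i).N).Coprime (X i').N) →
      (∀ i g, g ∣ (X i).N → g < (X i).N →
        (X i).weight c f g + (lam : ℚ) / 2 + D < ((X i).n : ℚ) / 2 + 1) →
      IsSmall X c f (∏ i, (X i).N) lam D) := by
    intro hco hsm I hI j hj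
    have h1 : ∀ i, ∃ u : ℕ, u.Coprime (X i).N ∧ u * j i ≡ (j i).gcd (X i).N [MOD (X i).N] :=
      fun i => Pool.Agent.N876.FL.exists_gcd_unit (hN0 i) (j i)
    choose u hu hu2 using h1
    obtain ⟨v, hv1, hv2⟩ := Pool.Agent.N876.TC.exists_crt (d := fun i => (X i).N) hN0 hco u hu
    refine ⟨v, hv1, ?_⟩
    have h2 : ∑ i ∈ I, (X i).weight c f (v * j i) + ∑ i ∈ I, ((lam : ℚ) / 2 + D) <
        ∑ i ∈ I, (((X i).n : ℚ) / 2 + 1) := by
      rw [← sum_add_distrib]
      refine Finset.sum_lt_sum_of_nonempty hI fun i hi => ?_
      rw [← add_assoc]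
      refine lt_of_le_of_lt (le_of_eq ?_) (hsm i ((j i).gcd (X i).N) (Nat.gcd_dvd_right _ _)
        (Pool.Agent.N876.FL.gcd_proper (hN0 i) (hj i hi)))
      congr 2
      unfold Family.weight
      congr 1
      refine sum_congr rfl fun k _ => sum_congr rfl fun t _ => ?_
      have h2 : v * j i * (X i).a k * c ^ t ≡ (j i).gcd (X i).N * (X i).a k * c ^ t
          [MOD (X i).N] :=
        ((((hv2 i).mul_right _).trans (hu2 i)).mul_right _).mul_right _
      rw [h2]
    refine lt_of_le_of_lt ?_ h2
    rw [sum_const, nsmul_eq_mul]
    have h3 : (1 : ℚ) ≤ I.card := by exact_mod_cast hI.card_pos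
    have h4 : (0 : ℚ) ≤ (lam : ℚ) / 2 + D := by positivity
    nlinarith
  have h3 : ∀ i, c % (X i).N = 1 → ∀ j,
      (X i).weight c f j = ((∑ k, (j * (X i).a k) % (X i).N : ℕ) : ℚ) / (X i).N := by
    intro i hc j
    have hN := (hX i).two_le
    have hN' : ((X i).N : ℚ) ≠ 0 := by exact_mod_cast (by omega : (X i).N ≠ 0)
    have hf' : (f : ℚ) ≠ 0 := by exact_mod_cast hf0.ne'
    unfold Family.weight
    have h1 : ∀ k, ∑ t ∈ range f, (((j * (X i).a k * c ^ t) % (X i).N : ℕ) : ℚ) =
        f * (((j * (X i).a k) % (X i).N : ℕ) : ℚ) := by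
      intro k
      have h2 : ∀ t ∈ range f, (((j * (X i).a k * c ^ t) % (X i).N : ℕ) : ℚ) =
          (((j * (X i).a k) % (X i).N : ℕ) : ℚ) := by
        intro t _
        have h3 : c ^ t ≡ 1 [MOD (X i).N] := by
          have h4 : c ≡ 1 [MOD (X i).N] := by
            show c % (X i).N = 1 % (X i).N
            rw [hc, Nat.mod_eq_of_lt (by omega)]
          simpa using h4.pow t
        have h5 : j * (X i).a k * c ^ t ≡ j * (X i).a k [MOD (X i).N] := by
          have h6 := h3.mul_left (j * (X i).a k)
          rwa [mul_one] at h6
        rw [h5]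
      rw [sum_congr rfl h2, sum_const, card_range, nsmul_eq_mul]
    rw [sum_congr rfl fun k _ => h1 k, ← mul_sum]
    push_cast
    rw [mul_div_mul_left _ _ hf']
  refine ⟨?_, h2, h3, ?_⟩
  · intro N hN hdN hsmall H
    have hlt : ∀ I : Finset ι, I.Nonempty → Pool.Agent.N876.UV.SmallI c f N (lam + 2 * D)
        (fun i => (X i).N) (fun i => (X i).n) (fun i => (X i).s) (fun i => (X i).a) I := by
      intro I hI j hj
      obtain ⟨u, hu, hlt⟩ := hsmall I hI j hj
      refine ⟨u, hu, Pool.Agent.N876.UV.weight_conv' hf0 hN hdN I
        (fun i => ∑ k, ∑ t ∈ range f, (u * j i * (X i).a k * c ^ t) % (X i).N) ?_⟩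
      have h1 : ∑ i ∈ I, (((∑ k, ∑ t ∈ range f, (u * j i * (X i).a k * c ^ t) % (X i).N : ℕ) : ℚ) /
          (f * (X i).N)) = ∑ i ∈ I, (X i).weight c f (u * j i) := by
        refine sum_congr rfl fun i _ => ?_
        unfold Family.weight
        push_cast
        rfl
      rw [h1]
      refine lt_of_le_of_lt (le_of_eq ?_) hlt
      push_cast
      ring
    have hpart : ∀ Z : Fibres res lam, Rationality dg H Z → ∀ (w : ℕ) (j : ι → ℕ),
        (∃ i, ¬ (X i).N ∣ j i) →
        Pool.Agent.N876.UV.OrderAt (Pool.Agent.N876.UV.prt dg (fun v => Fintype.card (res v))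
          (fun i => (X i).n) (fun i => (X i).N) (fun i => (H i).half) (fun i => (H i).α)
          (fun i => (H i).ε) Z.deg Z.β (2 * w) j) (1 / (Fintype.card κ : ℂ) ^ (w + D)) 0 := by
      intro Z hZ w j hj
      classical
      have hne : (univ.filter fun i => ¬ (X i).N ∣ j i).Nonempty := by
        obtain ⟨i, hi⟩ := hj
        exact ⟨i, mem_filter.2 ⟨mem_univ i, hi⟩⟩
      refine Pool.Agent.N876.UV.part_order (s := fun i => (X i).s) (a := fun i => (X i).a)
        (z := fun i => (X i).z) (D := lam) (e0 := 2 * D) (δ := lam + 2 * D) hf hN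
        (fun i => (hX i).two_le) hdN (fun i => (hX i).coprime)
        (fun i => (hX i).root) hres (fun i v => (X i).l v) (fun i v => (H i).invariants v)
        (fun i v L _ _ _ t => (H i).lefschetz v L t) (fun v y => Z.level v y) rfl
        (hlt _ hne) (fun i => ?_) (by omega) one_pos (one_pow 1) (isRat_of (hZ (2 * w) j hj))
      rw [mem_filter]
      simp
    have hbnd : ∀ Z : Fibres res lam, ∃ b : ℕ, (∀ i v, Fintype.card ((H i).J v) ≤ b) ∧
        ∀ v, Fintype.card (Z.J v) ≤ b := by
      intro Z
      obtain ⟨bZ, hbZ⟩ := Z.bounded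
      have hb := fun i => (H i).bounded
      choose b hb using hb
      refine ⟨∑ i, b i + bZ, fun i v => ?_, fun v => ?_⟩
      · refine (hb i v).trans ?_
        have h1 : b i ≤ ∑ i, b i := single_le_sum (f := b) (fun i _ => Nat.zero_le _) (mem_univ i)
        omega
      · refine (hbZ v).trans ?_
        omega
    have horders : ∀ (Z : Fibres res lam) (hZ : Rationality dg H Z) (r : ℕ → ℤ),
        (∀ w : ℕ, HasPole (LFunction (Fintype.card κ) (eulerFactor dg H Z (2 * w)))
          ((w + D : ℕ) : ℝ)
          (∑ k with halfDegree H k ≤ w, r (w - halfDegree H k))) ↔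
        ∀ w : ℕ, HasPole (LFunction (Fintype.card κ) (fibreFactor dg Z (2 * w)))
          ((w + D : ℕ) : ℝ) (r w) := by
      intro Z hZ r
      obtain ⟨b, hbJ, hbY⟩ := hbnd Z
      have h1 := Pool.Agent.U926.FM.orders (Q := fun v => Fintype.card (res v))
        (n := fun i => (X i).n) (d := fun i => (X i).N) (codim := fun i => (H i).half)
        (α := fun i => (H i).α) (ε := fun i => (H i).ε) (dY := Z.deg) (β := Z.β) hq1 hbase hcard hN0
        (fun i => (H i).invariants) (fun i => (H i).pure) Z.mixed hbJ hbY (hpart Z hZ)
        (fun i => (H i).unit) (fun i => (H i).half_eq_zero) r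
      have h2 : ∀ w : ℕ, (∑ k with halfDegree H k ≤ w, r (w - halfDegree H k)) =
          ∑ k ∈ Pool.Agent.N876.UV.fs (fun k : ∀ i, (H i).K => ∑ i, (H i).half (k i) ≤ w),
            r (w - ∑ i, (H i).half (k i)) := by
        intro w
        refine sum_congr ?_ fun k _ => rfl
        ext k
        rw [mem_filter, Pool.Agent.N876.UV.mem_fs]
        exact ⟨fun h => h.2, fun h => ⟨mem_univ k, h⟩⟩
      simp only [h2]
      exact h1
    refine ⟨?_, fun Z hZ => ⟨?_, ?_, horders Z hZ⟩, ?_⟩
    · intro Z v E w m hm hE hj
      classical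
      have hne : (univ.filter fun i => ¬ (X i).N ∣ exponent H Z E i).Nonempty := by
        obtain ⟨i, hi⟩ := hj
        exact ⟨i, mem_filter.2 ⟨mem_univ i, hi⟩⟩
      exact Pool.Agent.U926.FM.no_tate (s := fun i => (X i).s) (a := fun i => (X i).a)
        (z := fun i => (X i).z) (D := lam) (e0 := 2 * D) (δ := lam + 2 * D) (dg := dg) hf hN
        (fun i => (hX i).two_le) hdN (fun i => (hX i).coprime)
        (fun i => (hX i).root) hres (fun i v => (X i).l v) (codim := fun i => (H i).half)
        (fun i v => (H i).invariants v)
        (fun i v L _ _ _ t => (H i).lefschetz v L t) (dY := Z.deg) (fun v y => Z.level v y) rfl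
        (hlt _ hne) (j := exponent H Z E) (fun i => by rw [mem_filter]; simp)
        (nn := 2 * w) (w := w) (by omega) E hE (fun i => rfl) hm
    · intro w s hs
      obtain ⟨b, hbJ, hbY⟩ := hbnd Z
      refine Pool.Agent.U926.FE.multipliable_fac (J := fun v => Index H Z v)
        (pr := fun v E => degree H Z E = 2 * w) (β := fun v => eigenvalue H Z)
        (R0 := (Fintype.card κ : ℝ) ^ w) hq1 hbase
        (Pool.Agent.U926.FE.card_index (K := fun i => (H i).K) (J := fun i => (H i).J)
          (JY := Z.J) hbJ hbY) (by positivity) ?_ (Pool.Agent.U926.FE.qpow_lt hq1 hs)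
      intro v E hE
      refine Pool.Agent.U926.FM.norm_le_of_sq_le (hcard v) ?_
      have h1 := Pool.Agent.U926.FM.ee_norm_le (Q := fun v => Fintype.card (res v))
        (n := fun i => (X i).n) (codim := fun i => (H i).half) (α := fun i => (H i).α)
        (dY := Z.deg) (β := Z.β) (fun i => (H i).pure) Z.mixed E
      have h2 : Pool.Agent.N876.UV.dd (fun i => (X i).n) (fun i => (H i).half) Z.deg E = 2 * w :=
        hE
      rw [h2] at h1
      exact h1
    · intro w j hj
      obtain ⟨b, hbJ, hbY⟩ := hbnd Z
      refine Pool.Agent.U926.FE.hasPole_zero (J := fun v => Index H Z v)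
        (pr := fun v E => degree H Z E = 2 * w ∧ ∀ i, exponent H Z E i ≡ j i [MOD (X i).N])
        (β := fun v => eigenvalue H Z) hq1 hbase
        (Pool.Agent.U926.FE.card_index (K := fun i => (H i).K) (J := fun i => (H i).J)
          (JY := Z.J) hbJ hbY) ?_ (hpart Z hZ w j hj)
      intro v E hE
      refine Pool.Agent.U926.FM.norm_le_of_sq_le (hcard v) ?_
      have h1 := Pool.Agent.U926.FM.ee_norm_le (Q := fun v => Fintype.card (res v))
        (n := fun i => (X i).n) (codim := fun i => (H i).half) (α := fun i => (H i).α)
        (dY := Z.deg) (β := Z.β) (fun i => (H i).pure) Z.mixed E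
      have h2 : Pool.Agent.N876.UV.dd (fun i => (X i).n) (fun i => (H i).half) Z.deg E = 2 * w :=
        hE.1
      rw [h2] at h1
      exact h1
    · intro hres' J _ deg γ mixed level hZ w
      have h1 := (horders _ hZ (fun w => (Set.ncard {e | deg e = 2 * w ∧
        γ e = (Fintype.card κ : ℂ) ^ w} : ℤ))).2 (fun w => by
          have h2 := Pool.Agent.U926.FM.const_order hq1 hbase (deg := deg) (γ := γ) mixed w
          have h3 : ((Pool.Agent.N876.UV.fs (fun e => deg e = 2 * w ∧
              γ e = (Fintype.card κ : ℂ) ^ w)).card : ℤ) =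
              (Set.ncard {e | deg e = 2 * w ∧ γ e = (Fintype.card κ : ℂ) ^ w} : ℤ) := by
            rw [← Set.ncard_coe_finset]
            congr 2
            ext e
            rw [Finset.mem_coe, Pool.Agent.N876.UV.mem_fs]
            rfl
          rw [h3] at h2
          exact h2)
      exact h1 w
  · intro hp hne hc hsum hn
    refine h2 (fun i i' hii => (Nat.coprime_primes (hp i) (hp i')).2 (hne i i' hii)) ?_
    intro i g hg hlt
    have hg1 : g = 1 := by
      rcases (Nat.dvd_prime (hp i)).1 hg with h | h
      · exact h
      · omega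
    rw [h3 i (hc i), hg1]
    have h4 : (∑ k, (1 * (X i).a k) % (X i).N) ≤ (X i).N := by
      refine le_trans (sum_le_sum fun k _ => Nat.mod_le _ _) ?_
      simp only [one_mul]
      exact (hsum i).le
    have hN' : (0 : ℚ) < (X i).N := by exact_mod_cast hN0 i
    have h5 : (((∑ k, (1 * (X i).a k) % (X i).N : ℕ) : ℚ)) / (X i).N ≤ 1 := by
      rw [div_le_one hN']
      exact_mod_cast h4
    have h6 : ((lam : ℚ) + 2 * D) < (X i).n := by exact_mod_cast hn i
    linarith

end Pool.Agent.Results.MP_4776b1_ag.ProductsWithCoverings
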