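import Mathlib
import Pool.Agent.U175.LP.P4

/-!
# The Tate conjecture for products with powers of varieties whose residual representation is
# primitive and contains a transvection, and for dominated varieties

Let `p ≥ 5` be a prime number and `W` a Weil cohomology theory on a class of smooth projective varieties
over a field `k`, with coefficients in a field which contains the `p`-adic numbers; the example is the
`p`-adic cohomology of varieties over the algebraic closure of a finitely generated field `F` of
characteristic different from `p`. Let `Γ` be a group with a character `κ` (the Galois group of `F` and
the cyclotomic character); `twist κ` is the action on the Tate twists. The conjecture `TateConjecture`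
for `Y` says that the classes in `H^(2j)(Y)(j)` which are invariant under some subgroup of finite
index are linear combinations of classes of algebraic cycles, for all `j`: this is part (a) of the
question for smooth projective `Y` and all finite extensions of `F`.

Let `X i` be finitely many varieties of odd dimension, with an action of `Γ` on the cohomology with the
formal properties of the Galois action; homological and numerical equivalence coincide for `X i`
(for instance curves, threefolds with representable Chow group of zero cycles, hypersurfaces and
complete intersections of odd dimension), the transcendental cohomology is in the middle degree,
and `Λ i` is a lattice over the `p`-adic integers in it, of rank `N i`, stable under `Γ`; a multiple of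
the intersection form is integral and not zero modulo `p` on `Λ i` (`ResidualFamily`). The variety `Z` is
arbitrary, with a stable lattice of rank `d` in its cohomology. The hypothesis (`ResidualTransvections`)
is on the residual representations `Λ i / p Λ i` only:

* (primitive) a subspace `W` of `Λ i / p Λ i` such that for all `g` in `Γ` the subspace `g W` is equal
  to `W` or orthogonal to `W` is zero or the whole space;
* (transvection) for each `i` ONE element of `Γ` acts as a nontrivial transvection on `Λ i / p Λ i`,
  and trivially on `Λ j / p Λ j` if `j ≠ i` and `N j = N i`, and also on the lattice of `Z` modulo `p`
  if `N i (N i + 1) ≤ 2 d ^ 2` (for example an element of the inertia group at a place at which `X i`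
  acquires one ordinary double point, if the other `X j` with the same Betti number, and `Z` if its
  Betti number is not small, have good reduction there).

**Theorem.** Let `Y` be the product of `Z` with arbitrary powers of different `X i` (`GTower`). Then

1. (a) holds for `Y`, for cycles of all dimensions, if and only if it holds for `Z`;
2. if it holds for `Z` (for instance if `Z` is a point or a curve), then it holds for every variety
   `V` which is dominated by `Y` over `F` (`1` is the direct image under an equivariant morphism from
   `Y` to `V` of the class of a cycle), for instance for the products of `Z` with powers of the
   Jacobian varieties of the `X i`, if these are curves.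

Nothing is known or assumed about the semisimplicity of the action on the cohomology of `Z`, about
the standard conjectures for `Z` or the conjecture of Hodge type for `X i`, or about Hodge cycles; the
`p`-adic image is not supposed to contain unipotent elements.

Proof. The form on `Λ i / p Λ i` is nondegenerate, and the translates of the vector of the
transvection span it and are connected (two translates are joined by a chain in which consecutive
vectors are not orthogonal), as the span of a class is nonzero and equal or orthogonal to its
translates (`connected_of_primitive`). So the Lie algebra of the joint `p`-adic image contains the
symplectic Lie algebra of each `Λ i`, zero on the other lattices and on the cohomology of `Z`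
(`tan_large'`, see `MP_96693b_ag.LargeImageModPrime`). These Lie algebras kill all forms with values in
the cohomology of `Z` which are equivariant under a subgroup of finite index. By the first
fundamental theorem a Tate class on `Y` is a combination of products of algebraic classes on the
powers of the `X i` and classes on `Z`; taking bases which are permuted with twists by a subgroup of
finite index one sees that the latter are Tate classes.
-/

universe u

namespace Pool.Agent.Results.MP_4776b1_ag.ResidualTransvections

open CategoryTheory Pool.Agent.H914 Pool.Agent.TH125.Gal Pool.Agent.U175.LP.Res
  Pool.Agent.V11219.Bst

/-- **The Tate conjecture for products with powers of varieties whose residual representation modulo a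
prime number `p ≥ 5` is primitive and contains a transvection, and for dominated varieties.** -/
theorem result {p : ℕ} [Fact p.Prime] (hp : 5 ≤ p) {k : Type u} [Field k] {𝒱 : VarClass k}
    {ops : CycleOps 𝒱} (W : WeilCohomology.{u, 0} ops) [Algebra ℚ_[p] W.K] {Γ : Type} [Group Γ]
    (κ : Γ →* ℤ_[p]ˣ) {ι : Type} [Finite ι] (X : ι → GVar W Γ) (Z : GVar W Γ) {N : ι → ℕ}
    (b : ∀ i, Fin (N i) → W.H (X i).X) (J : ∀ i, Matrix (Fin (N i)) (Fin (N i)) ℤ_[p])
    (ρ : ∀ i, Γ →* Matrix (Fin (N i)) (Fin (N i)) ℤ_[p])
    (h : ResidualFamily κ X b J ρ) (hR : ResidualTransvections Z.act J ρ)
    {S : Set ι} {Y : GVar W Γ} (hY : GTower X Z S Y) :
    (TateConjecture (twist W.K κ) Y ↔ TateConjecture (twist W.K κ) Z) ∧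
    (TateConjecture (twist W.K κ) Z → ∀ (V : GVar W Γ) (g : Y.X ⟶ V.X), Dominant W g →
      Equivariant g → TateConjecture (twist W.K κ) V) :=
  Pool.Agent.U175.LP.tate_residual hp h hR hY

end Pool.Agent.Results.MP_4776b1_ag.ResidualTransvections
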